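import Pool.Agent.H123R3.G.NonAxi

/-!
# A Gavrilov flow that is not axisymmetric (MP_d68153_an, Q1: yes)

There is a ball `U` of `ℝ³` and a smooth steady Euler flow `(u, p)` on `U`, with velocity pointwise
orthogonal to the pressure gradient and without critical points of the pressure, which is not
axisymmetric about any line.

The flow is invariant under the screw motions with axis `x₁ = x₂ = 0` and pitch one.  Put
`ρ = x₁² + x₂²`, `η = arctan (x₂ / x₁) + x₃`.  Then `p = P(ρ, η)` and
`u = ((s x₁ - b x₂) / ρ, (s x₂ + b x₁) / ρ, c)` where `b = B(p) - ρ/2`, `c = A(p) - ρ/2`,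
`s = √(3 ρ p - b² - ρ c²)`, and where `P` solves the total differential equation
`dP = (-b - ρ c) / (2 ρ) dρ + s dη`.  This equation is integrable, and the flow is free of
divergence, when `(A, B)` solves a system of two ordinary differential equations; the momentum
equation then holds identically.
-/

set_option autoImplicit false

open Set Metric Filter Topology
open scoped ContDiff InnerProductSpace

namespace Pool.Agent.Results.MP_d68153_an.HelicalGavrilov

/-- Euclidean space of dimension three -/
abbrev E3 := EuclideanSpace ℝ (Fin 3)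

/-- the derivative of `u` at `x` in the direction `v`, that is `(v·∇)u (x)` -/
noncomputable def dirDeriv (u : E3 → E3) (x v : E3) : E3 := fderiv ℝ u x v

/-- the gradient of `p` -/
noncomputable def grad (p : E3 → ℝ) (x : E3) : E3 := gradient p x

/-- the `i`-th vector of the standard basis -/
noncomputable def basisVec (i : Fin 3) : E3 := EuclideanSpace.single i 1

/-- the divergence `∂₁u₁ + ∂₂u₂ + ∂₃u₃` -/
noncomputable def divergence (u : E3 → E3) (x : E3) : ℝ :=
  ∑ i : Fin 3, dirDeriv u x (basisVec i) i

/-- the scalar product of two vectors -/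
noncomputable def dot (a b : E3) : ℝ := ⟪a, b⟫_ℝ

/-- `u` is of class `C^∞` on `U` -/
def SmoothField (U : Set E3) (u : E3 → E3) : Prop := ContDiffOn ℝ ∞ u U

/-- `p` is of class `C^∞` on `U` -/
def SmoothFun (U : Set E3) (p : E3 → ℝ) : Prop := ContDiffOn ℝ ∞ p U

/-- `(u, p)` is a Gavrilov flow on `U`: it is smooth, solves the steady Euler equations
`(u·∇)u + grad p = 0`, `∇·u = 0` on `U`, and `u·grad p = 0` on `U`. -/
structure IsGavrilovFlow (U : Set E3) (u : E3 → E3) (p : E3 → ℝ) : Prop where
  smooth_u : SmoothField U u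
  smooth_p : SmoothFun U p
  momentum : ∀ x ∈ U, dirDeriv u x (u x) + grad p x = 0
  incompressible : ∀ x ∈ U, divergence u x = 0
  orthogonal : ∀ x ∈ U, dot (u x) (grad p x) = 0

/-- the group of isometries of space -/
abbrev Isom := E3 ≃ᵃⁱ[ℝ] E3

/-- the linear part of an isometry -/
noncomputable def linPart (R : Isom) : E3 ≃ₗᵢ[ℝ] E3 := R.linearIsometryEquiv

/-- the determinant of the linear part of an isometry -/
noncomputable def detOf (R : Isom) : ℝ :=
  LinearMap.det ((linPart R).toLinearEquiv : E3 →ₗ[ℝ] E3)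

/-- `R` is a rotation of space about the line through `c` with direction `w`: an isometry of
determinant one that fixes every point of the line. -/
def IsRotationAbout (c w : E3) (R : Isom) : Prop :=
  (∀ t : ℝ, R (c + t • w) = c + t • w) ∧ detOf R = 1

/-- `(u, p)` is axisymmetric on `U`: there is a line such that for every rotation `R` about it and
every `x ∈ U` with `R x ∈ U` one has `p (R x) = p x` and `u (R x) = R (u x)` (the linear part of `R`
acting on vectors). -/
def IsAxisymmetric (U : Set E3) (u : E3 → E3) (p : E3 → ℝ) : Prop :=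
  ∃ c w : E3, w ≠ 0 ∧ ∀ R : Isom, IsRotationAbout c w R →
    ∀ x ∈ U, R x ∈ U → p (R x) = p x ∧ u (R x) = linPart R (u x)

/-- There are a nonempty connected open set `U` of `ℝ³` and a Gavrilov flow on `U`, without critical
points of the pressure, that is not axisymmetric. -/
theorem result :
    ∃ (U : Set E3) (u : E3 → E3) (p : E3 → ℝ), IsOpen U ∧ IsConnected U ∧
      IsGavrilovFlow U u p ∧ (∀ x ∈ U, grad p x ≠ 0) ∧ ¬ IsAxisymmetric U u p := by
  obtain ⟨d⟩ := H123R3.G.exists_data
  obtain ⟨σ⟩ := H123R3.G.exists_sol d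
  obtain ⟨r, hr, hsub⟩ := H123R3.G.exists_ball σ
  have h0 : H123R3.G.hx 0 ∈ ball (H123R3.G.hx 0) r := mem_ball_self hr
  refine ⟨ball (H123R3.G.hx 0) r, H123R3.G.uX σ, H123R3.G.pp σ, isOpen_ball,
    ((convex_ball _ _).isConnected ⟨_, h0⟩), ?_, ?_, ?_⟩
  · exact ⟨fun x hx => (H123R3.G.uX_smooth σ (hsub hx)).contDiffWithinAt,
      fun x hx => (H123R3.G.pp_smooth σ (hsub hx)).contDiffWithinAt,
      fun x hx => (H123R3.G.euler_at σ (hsub hx)).1,
      fun x hx => (H123R3.G.euler_at σ (hsub hx)).2.1,
      fun x hx => (H123R3.G.euler_at σ (hsub hx)).2.2.1⟩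
  · exact fun x hx => (H123R3.G.euler_at σ (hsub hx)).2.2.2
  · rintro ⟨c, w, hw, H⟩
    exact H123R3.G.no_axis σ isOpen_ball h0 hw fun R h1 h2 x hx hRx =>
      (H R ⟨h1, h2⟩ x hx hRx).1

end Pool.Agent.Results.MP_d68153_an.HelicalGavrilov
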